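import Mathlib
import Pool.Agent.Work.MP_a8fbd7_nt.OX.ID.RoughSieve
import Pool.Agent.Work.MP_a8fbd7_nt.OX.ID.Linnik

/-!
# MP_a8fbd7_nt, OX/SV: rough numbers in intervals, tuples of rough numbers, the discarding lemma

* `count_short` : `z`-rough numbers in `(x, x+h]`, `h ≥ z³`: at most `3 h / log z`;
* `count_prefix` : `z`-rough numbers in `[2, y]`, `y ≥ 0`: at most `24 y / log z`;
* `sum_inv` : the sum of `1/n` over `z`-rough `n ≥ 2` in `(u, v]`: at most `100 (1 + log (v/u)) / log z`;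
* `tuples_card` : at most `k ^ Ω m` tuples `(f 1, …, f k)` with product `m`;
* `all_tuples` : rough `k`-tuples with product in `(x, x+h]`: at most `3 k ^ K h / log z`;
* `drop_tuples` : those with some entry in `(Y1, Y2]`: at most `300 k ^ K h (1 + log (Y2/Y1)) / (log z)²`.
-/

set_option autoImplicit false

open Finset
open scoped ArithmeticFunction.Omega

namespace Pool.Agent.Work.MP_a8fbd7_nt.OX.SV

open Pool.Agent.Work.MP_a8fbd7_nt.OX.ID

theorem zrough_of_rough {z n : ℕ} (h : Rough z n) : ZRough z n := by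
  intro p hp hpz hpn
  have := h p hp hpn
  omega

theorem Rough.anti {w z n : ℕ} (hwz : w ≤ z) (h : Rough z n) : Rough w n := by
  intro p hp hpn
  have := h p hp hpn
  omega

/-- rough numbers in a short interval -/
theorem count_short (z : ℕ) (x h : ℝ) (hz : 2 ≤ z) (hx : 0 ≤ x) (hh : (z : ℝ) ^ 3 ≤ h)
    (S : Finset ℕ) (hS : ∀ n ∈ S, x < n ∧ (n : ℝ) ≤ x + h ∧ Rough z n) :
    (S.card : ℝ) ≤ 3 * h / Real.log z := by
  have hz2 : (2 : ℝ) ≤ z := by exact_mod_cast hz
  have hz3 : (8 : ℝ) ≤ (z : ℝ) ^ 3 := by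
    calc (8 : ℝ) = 2 ^ 3 := by norm_num
      _ ≤ (z : ℝ) ^ 3 := by gcongr
  have hh1 : 1 ≤ h := by linarith
  have hl : 0 < Real.log z := Real.log_pos (by linarith)
  have hlz : Real.log z ≤ z := (Real.log_le_sub_one_of_pos (by linarith)).trans (by linarith)
  have h1 := rough_count_real z x h hz hx (by linarith) S
    (fun n hn => ⟨(hS n hn).1, (hS n hn).2.1, zrough_of_rough (hS n hn).2.2⟩)
  have h2 : (z : ℝ) ^ 2 ≤ h / Real.log z := by
    rw [le_div_iff₀ hl]
    calc (z : ℝ) ^ 2 * Real.log z ≤ (z : ℝ) ^ 2 * z := by gcongr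
      _ = (z : ℝ) ^ 3 := by ring
      _ ≤ h := hh
  have h3 : (h + 1) / Real.log z ≤ 2 * h / Real.log z := by gcongr; linarith
  have h4 : 3 * h / Real.log z = 2 * h / Real.log z + h / Real.log z := by ring
  rw [h4]
  linarith

/-- rough numbers up to `y` -/
theorem count_prefix (z : ℕ) (y : ℝ) (hz : 2 ≤ z) (hy : 0 ≤ y)
    (S : Finset ℕ) (hS : ∀ n ∈ S, 2 ≤ n ∧ (n : ℝ) ≤ y ∧ Rough z n) :
    (S.card : ℝ) ≤ 24 * y / Real.log z := by
  have hz2 : (2 : ℝ) ≤ z := by exact_mod_cast hz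
  have hl : 0 < Real.log z := Real.log_pos (by linarith)
  rcases S.eq_empty_or_nonempty with rfl | hne
  · simp only [card_empty, Nat.cast_zero]
    positivity
  obtain ⟨n0, hn0⟩ := hne
  have hn0z : z < n0 := by
    obtain ⟨h2, -, hr⟩ := hS n0 hn0
    have hp := Nat.minFac_prime (show n0 ≠ 1 by omega)
    have := hr _ hp (Nat.minFac_dvd n0)
    exact lt_of_lt_of_le this (Nat.minFac_le (by omega))
  have hzy : (z : ℝ) ≤ y := by
    have : (z : ℝ) ≤ n0 := by exact_mod_cast hn0z.le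
    exact this.trans (hS n0 hn0).2.1
  rcases Nat.lt_or_ge z 16 with h16 | h16
  · have h1 : (S.card : ℝ) ≤ y := by
      have hsub : S ⊆ Ioc 0 ⌊y⌋₊ := by
        intro n hn
        rw [mem_Ioc]
        exact ⟨by have := (hS n hn).1; omega, Nat.le_floor (hS n hn).2.1⟩
      have := card_le_card hsub
      rw [Nat.card_Ioc, Nat.sub_zero] at this
      calc (S.card : ℝ) ≤ (⌊y⌋₊ : ℕ) := by exact_mod_cast this
        _ ≤ y := Nat.floor_le hy
    have h2 : Real.log z ≤ 24 := by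
      have h3 : Real.log z ≤ z - 1 := Real.log_le_sub_one_of_pos (by linarith)
      have h4 : (z : ℝ) ≤ 16 := by exact_mod_cast h16.le
      linarith
    rw [le_div_iff₀ hl]
    nlinarith
  · set w : ℕ := Nat.sqrt (Nat.sqrt z) with hw
    have hw4 : w ^ 4 ≤ z := by
      have e1 : w ^ 2 ≤ Nat.sqrt z := Nat.sqrt_le' _
      have e2 : (Nat.sqrt z) ^ 2 ≤ z := Nat.sqrt_le' _
      calc w ^ 4 = (w ^ 2) ^ 2 := by ring
        _ ≤ (Nat.sqrt z) ^ 2 := Nat.pow_le_pow_left e1 2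
        _ ≤ z := e2
    have hw2 : 2 ≤ w := by
      rw [hw, Nat.le_sqrt', Nat.le_sqrt']
      norm_num
      exact h16
    have hz8 : z < w ^ 8 := by
      have e1 : Nat.sqrt z < (w + 1) ^ 2 := Nat.lt_succ_sqrt' _
      have e2 : z < (Nat.sqrt z + 1) ^ 2 := Nat.lt_succ_sqrt' _
      have e3 : Nat.sqrt z + 1 ≤ (w + 1) ^ 2 := e1
      have e4 : w + 1 ≤ w ^ 2 := by nlinarith
      calc z < (Nat.sqrt z + 1) ^ 2 := e2
        _ ≤ ((w + 1) ^ 2) ^ 2 := Nat.pow_le_pow_left e3 2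
        _ ≤ ((w ^ 2) ^ 2) ^ 2 := Nat.pow_le_pow_left (Nat.pow_le_pow_left e4 2) 2
        _ = w ^ 8 := by ring
    have hwz : w ≤ z := le_trans (by nlinarith [pow_le_pow_left₀ (by omega : 0 ≤ 2) hw2 3] : w ≤ w ^ 4) hw4
    have hw3 : ((w : ℕ) : ℝ) ^ 3 ≤ y := by
      have e1 : w ^ 3 ≤ z := (Nat.pow_le_pow_right (by omega) (by norm_num)).trans hw4
      have e2 : ((w : ℕ) : ℝ) ^ 3 ≤ z := by exact_mod_cast e1
      linarith
    have h1 := count_short w 0 y hw2 le_rfl hw3 S (fun n hn => by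
      obtain ⟨a1, a2, a3⟩ := hS n hn
      refine ⟨?_, by linarith, Rough.anti hwz a3⟩
      have : 0 < n := by omega
      exact_mod_cast this)
    have hwR : (2 : ℝ) ≤ w := by exact_mod_cast hw2
    have hlw : 0 < Real.log w := Real.log_pos (by linarith)
    have h2 : Real.log z ≤ 8 * Real.log w := by
      have e1 : (z : ℝ) ≤ (w : ℝ) ^ 8 := by exact_mod_cast hz8.le
      calc Real.log z ≤ Real.log ((w : ℝ) ^ 8) := Real.log_le_log (by linarith) e1
        _ = 8 * Real.log w := by rw [Real.log_pow]; norm_num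
    refine h1.trans ?_
    rw [div_le_div_iff₀ hlw hl]
    nlinarith

/-- the sum of `1/n` over rough `n` -/
theorem sum_inv (z : ℕ) (u v : ℝ) (hz : 2 ≤ z) (hu : 1 ≤ u) (huv : u ≤ v)
    (S : Finset ℕ) (hS : ∀ n ∈ S, 2 ≤ n ∧ u ≤ n ∧ (n : ℝ) ≤ v ∧ Rough z n) :
    ∑ n ∈ S, 1 / (n : ℝ) ≤ 100 * (1 + Real.log (v / u)) / Real.log z := by
  have hz2 : (2 : ℝ) ≤ z := by exact_mod_cast hz
  have hl : 0 < Real.log z := Real.log_pos (by linarith)
  have hu0 : 0 < u := by linarith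
  have hvu : 1 ≤ v / u := by rw [le_div_iff₀ hu0]; linarith
  set J : ℕ := ⌊Real.logb 2 (v / u)⌋₊ + 1 with hJ
  set f : ℕ → ℕ := fun n => ⌊Real.logb 2 ((n : ℝ) / u)⌋₊ with hf
  have hmap : ∀ n ∈ S, f n ∈ range J := by
    intro n hn
    obtain ⟨a1, a2, a3, a4⟩ := hS n hn
    rw [mem_range, hJ, Nat.lt_succ_iff]
    apply Nat.floor_mono
    apply Real.logb_le_logb_of_le (by norm_num)
    · have : 0 < (n : ℝ) := by linarith
      positivity
    · gcongr
  rw [← sum_fiberwise_of_maps_to hmap]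
  have hfib : ∀ j ∈ range J, ∑ n ∈ S with f n = j, 1 / (n : ℝ) ≤ 48 / Real.log z := by
    intro j _
    have hblock : ∀ n ∈ S.filter (fun n => f n = j), (2 : ℝ) ^ j * u ≤ n ∧ (n : ℝ) ≤ 2 ^ (j + 1) * u := by
      intro n hn
      rw [mem_filter] at hn
      obtain ⟨a1, a2, a3, a4⟩ := hS n hn.1
      have hnu : 1 ≤ (n : ℝ) / u := by rw [le_div_iff₀ hu0]; linarith
      have h0 : 0 ≤ Real.logb 2 ((n : ℝ) / u) := Real.logb_nonneg (by norm_num) hnu
      have h1 := Nat.floor_le h0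
      have h2 := Nat.lt_floor_add_one (Real.logb 2 ((n : ℝ) / u))
      have h3 : ⌊Real.logb 2 ((n : ℝ) / u)⌋₊ = j := hn.2
      rw [h3] at h1 h2
      have hpos : 0 < (n : ℝ) / u := by linarith
      rw [Real.le_logb_iff_rpow_le (by norm_num) hpos, Real.rpow_natCast, le_div_iff₀ hu0] at h1
      have h2' : Real.logb 2 ((n : ℝ) / u) < ((j + 1 : ℕ) : ℝ) := by push_cast; exact h2
      rw [Real.logb_lt_iff_lt_rpow (by norm_num) hpos, Real.rpow_natCast, div_lt_iff₀ hu0] at h2'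
      exact ⟨h1, h2'.le⟩
    have hcard := count_prefix z (2 ^ (j + 1) * u) hz (by positivity) (S.filter (fun n => f n = j))
      (fun n hn => by
        have := hblock n hn
        rw [mem_filter] at hn
        obtain ⟨a1, a2, a3, a4⟩ := hS n hn.1
        exact ⟨a1, this.2, a4⟩)
    have hle : ∑ n ∈ S with f n = j, 1 / (n : ℝ) ≤
        ∑ n ∈ S with f n = j, 1 / ((2 : ℝ) ^ j * u) := by
      apply sum_le_sum
      intro n hn
      have := (hblock n hn).1
      exact one_div_le_one_div_of_le (by positivity) this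
    refine hle.trans ?_
    rw [sum_const, nsmul_eq_mul]
    have h5 : (((S.filter (fun n => f n = j)).card : ℕ) : ℝ) * (1 / ((2 : ℝ) ^ j * u)) ≤
        (24 * (2 ^ (j + 1) * u) / Real.log z) * (1 / ((2 : ℝ) ^ j * u)) := by
      apply mul_le_mul_of_nonneg_right hcard
      positivity
    refine h5.trans (le_of_eq ?_)
    rw [pow_succ]
    field_simp
    norm_num
  refine (sum_le_sum hfib).trans ?_
  rw [sum_const, card_range, nsmul_eq_mul]
  have hJle : (J : ℝ) ≤ 2 * (1 + Real.log (v / u)) := by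
    have h0 : 0 ≤ Real.logb 2 (v / u) := Real.logb_nonneg (by norm_num) hvu
    have h1 := Nat.floor_le h0
    have hlog0 : 0 ≤ Real.log (v / u) := Real.log_nonneg hvu
    have h2 : Real.logb 2 (v / u) ≤ 2 * Real.log (v / u) := by
      rw [Real.logb, div_le_iff₀ (Real.log_pos (by norm_num))]
      have : (0.5 : ℝ) < Real.log 2 := by
        have := Real.log_two_gt_d9
        linarith
      nlinarith
    rw [hJ]
    push_cast
    linarith
  have h48 : 0 < 48 / Real.log z := by positivity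
  calc (J : ℝ) * (48 / Real.log z) ≤ 2 * (1 + Real.log (v / u)) * (48 / Real.log z) := by gcongr
    _ = 96 * (1 + Real.log (v / u)) / Real.log z := by ring
    _ ≤ 100 * (1 + Real.log (v / u)) / Real.log z := by
        have : 0 ≤ 1 + Real.log (v / u) := by have := Real.log_nonneg hvu; linarith
        gcongr
        norm_num

/-- the number of `k`-tuples with product `m` -/
theorem tuples_card {k : ℕ} : ∀ (m : ℕ), m ≠ 0 → ∀ TT : Finset (Fin k → ℕ),
    (∀ f ∈ TT, ∏ i, f i = m) → TT.card ≤ k ^ Ω m := by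
  classical
  intro m
  induction m using Nat.strong_induction_on with
  | _ m ih =>
    intro hm TT hTT
    by_cases h1 : m = 1
    · subst h1
      rw [ArithmeticFunction.cardFactors_one, pow_zero, card_le_one]
      intro f hf g hg
      have hf1 := hTT f hf
      have hg1 := hTT g hg
      rw [Finset.prod_eq_one_iff] at hf1 hg1
      funext i
      rw [hf1 i (mem_univ i), hg1 i (mem_univ i)]
    · obtain ⟨p, hp, m', rfl⟩ := Nat.exists_prime_and_dvd h1
      have hm' : m' ≠ 0 := by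
        rintro rfl
        exact hm (mul_zero p)
      have hlt : m' < p * m' := by
        have := hp.two_le
        nlinarith [Nat.pos_of_ne_zero hm']
      have hsub : TT ⊆ (univ : Finset (Fin k)).biUnion fun i => TT.filter fun f => p ∣ f i := by
        intro f hf
        have h2 : p ∣ ∏ i, f i := by rw [hTT f hf]; exact dvd_mul_right p m'
        obtain ⟨i, -, hi⟩ := (hp.prime.dvd_finsetProd_iff f).1 h2
        exact mem_biUnion.2 ⟨i, mem_univ i, mem_filter.2 ⟨hf, hi⟩⟩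
      have hone : ∀ i ∈ (univ : Finset (Fin k)), (TT.filter fun f => p ∣ f i).card ≤ k ^ Ω m' := by
        intro i _
        have hinj : Set.InjOn (fun f : Fin k → ℕ => Function.update f i (f i / p))
            (TT.filter fun f => p ∣ f i : Finset (Fin k → ℕ)) := by
          intro f hf g hg hfg
          have hf' := (mem_filter.1 (mem_coe.1 hf)).2
          have hg' := (mem_filter.1 (mem_coe.1 hg)).2
          funext j
          have hj := congrFun hfg j
          by_cases hji : j = i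
          · subst hji
            simp only [Function.update_self] at hj
            rw [← Nat.div_mul_cancel hf', ← Nat.div_mul_cancel hg', hj]
          · simpa only [Function.update_of_ne hji] using hj
        rw [← card_image_of_injOn hinj]
        apply ih m' hlt hm'
        intro g hg
        obtain ⟨f, hf, rfl⟩ := mem_image.1 hg
        obtain ⟨hf1, hf2⟩ := mem_filter.1 hf
        have e1 : ∏ j, f j = f i * ∏ j ∈ univ \ {i}, f j :=
          prod_eq_mul_prod_sdiff_singleton_of_mem (mem_univ i) f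
        have e2 : ∏ j, Function.update f i (f i / p) j = f i / p * ∏ j ∈ univ \ {i}, f j :=
          prod_update_of_mem (mem_univ i) f _
        rw [e2]
        rw [hTT f hf1] at e1
        obtain ⟨c, hc⟩ := hf2
        rw [hc] at e1 ⊢
        rw [Nat.mul_div_cancel_left _ hp.pos]
        rw [mul_assoc] at e1
        exact (Nat.eq_of_mul_eq_mul_left hp.pos e1).symm
      calc TT.card ≤ _ := card_le_card hsub
        _ ≤ ∑ i : Fin k, (TT.filter fun f => p ∣ f i).card := card_biUnion_le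
        _ ≤ ∑ _i : Fin k, k ^ Ω m' := sum_le_sum hone
        _ = k * k ^ Ω m' := by rw [sum_const, card_univ, Fintype.card_fin, smul_eq_mul]
        _ = k ^ Ω (p * m') := by
          rw [ArithmeticFunction.cardFactors_mul hp.ne_zero hm',
            ArithmeticFunction.cardFactors_apply_prime hp, pow_add, pow_one]

theorem rough_prod {k z : ℕ} (f : Fin k → ℕ) (h : ∀ i, Rough z (f i)) : Rough z (∏ i, f i) := by
  intro p hp hd
  obtain ⟨i, -, hi⟩ := (hp.prime.dvd_finsetProd_iff f).1 hd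
  exact h i p hp hi

theorem cardFactors_le_of_rough {z m K : ℕ} (hz : 1 ≤ z) (hm : m ≠ 0) (h : Rough z m)
    (hK : m ≤ z ^ (K + 1)) : Ω m ≤ K := by
  rcases Nat.lt_or_ge m 2 with h2 | h2
  · have : m = 1 := by omega
    subst this
    simp
  · exact h.cardFactors_le hz h2 hK

/-- counting tuples by their products -/
theorem tuples_le {k z K : ℕ} (hz : 1 ≤ z) (TT : Finset (Fin k → ℕ))
    (h0 : ∀ f ∈ TT, ∏ i, f i ≠ 0) (hr : ∀ f ∈ TT, ∀ i, Rough z (f i))
    (hK : ∀ f ∈ TT, ∏ i, f i ≤ z ^ (K + 1)) (hk : 1 ≤ k) :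
    TT.card ≤ k ^ K * (TT.image fun f => ∏ i, f i).card := by
  classical
  rw [card_eq_sum_card_image (fun f => ∏ i, f i) TT, mul_comm, ← smul_eq_mul]
  apply sum_le_card_nsmul
  intro m hm
  obtain ⟨f, hf, rfl⟩ := mem_image.1 hm
  refine (tuples_card _ (h0 f hf) _ (fun g hg => (mem_filter.1 hg).2)).trans ?_
  exact Nat.pow_le_pow_right hk
    (cardFactors_le_of_rough hz (h0 f hf) (rough_prod f (hr f hf)) (hK f hf))

/-- all rough tuples with product in an interval -/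
theorem all_tuples {k z K : ℕ} (x h : ℝ) (hz : 2 ≤ z) (hk : 1 ≤ k) (hx : 0 ≤ x)
    (hh : (z : ℝ) ^ 3 ≤ h) (hK : x + h ≤ (z : ℝ) ^ (K + 1)) (TT : Finset (Fin k → ℕ))
    (hr : ∀ f ∈ TT, ∀ i, Rough z (f i))
    (hI : ∀ f ∈ TT, x < ((∏ i, f i : ℕ) : ℝ) ∧ ((∏ i, f i : ℕ) : ℝ) ≤ x + h) :
    (TT.card : ℝ) ≤ 3 * (k : ℝ) ^ K * h / Real.log z := by
  classical
  have h0 : ∀ f ∈ TT, ∏ i, f i ≠ 0 := by
    intro f hf h0
    have := (hI f hf).1
    rw [h0, Nat.cast_zero] at this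
    linarith
  have hK' : ∀ f ∈ TT, ∏ i, f i ≤ z ^ (K + 1) := by
    intro f hf
    have := (hI f hf).2.trans hK
    exact_mod_cast this
  have h1 := tuples_le (by omega) TT h0 hr hK' hk
  have h2 := count_short z x h hz hx hh (TT.image fun f => ∏ i, f i) (by
    intro n hn
    obtain ⟨f, hf, rfl⟩ := mem_image.1 hn
    exact ⟨(hI f hf).1, (hI f hf).2, rough_prod f (hr f hf)⟩)
  have h3 : (TT.card : ℝ) ≤ (k : ℝ) ^ K * (TT.image fun f => ∏ i, f i).card := by exact_mod_cast h1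
  calc (TT.card : ℝ) ≤ (k : ℝ) ^ K * (TT.image fun f => ∏ i, f i).card := h3
    _ ≤ (k : ℝ) ^ K * (3 * h / Real.log z) := by gcongr
    _ = 3 * (k : ℝ) ^ K * h / Real.log z := by ring

/-- rough numbers `m` in an interval with a divisor `a ∈ (Y1, Y2]`, `a` and `m / a` rough -/
theorem divisor_window {z : ℕ} (x h Y1 Y2 : ℝ) (hz : 2 ≤ z) (hx : 0 ≤ x) (hY1 : 1 ≤ Y1)
    (hY : Y1 ≤ Y2) (hh : (z : ℝ) ^ 3 * Y2 ≤ h) (M : Finset ℕ)
    (hM : ∀ m ∈ M, x < (m : ℝ) ∧ (m : ℝ) ≤ x + h ∧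
      ∃ a b : ℕ, m = a * b ∧ Rough z a ∧ Rough z b ∧ Y1 < a ∧ (a : ℝ) ≤ Y2) :
    (M.card : ℝ) ≤ 300 * h * (1 + Real.log (Y2 / Y1)) / (Real.log z) ^ 2 := by
  classical
  have hz2 : (2 : ℝ) ≤ z := by exact_mod_cast hz
  have hl : 0 < Real.log z := Real.log_pos (by linarith)
  have hh0 : 0 ≤ h := le_trans (mul_nonneg (by positivity) (by linarith)) hh
  set A : Finset ℕ := (Icc 1 ⌊Y2⌋₊).filter (fun a => Rough z a ∧ Y1 < (a : ℝ)) with hA
  have hsub : M ⊆ A.biUnion fun a => M.filter fun m => ∃ b, m = a * b ∧ Rough z b := by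
    intro m hm
    obtain ⟨h1, h2, a, b, h3, h4, h5, h6, h7⟩ := hM m hm
    refine mem_biUnion.2 ⟨a, ?_, mem_filter.2 ⟨hm, b, h3, h5⟩⟩
    rw [hA, mem_filter, mem_Icc]
    refine ⟨⟨?_, Nat.le_floor h7⟩, h4, h6⟩
    have : (1 : ℝ) < a := by linarith
    have : 1 < a := by exact_mod_cast this
    omega
  have hone : ∀ a ∈ A, (((M.filter fun m => ∃ b, m = a * b ∧ Rough z b).card : ℕ) : ℝ) ≤
      3 * h / Real.log z * (1 / (a : ℝ)) := by
    intro a ha
    rw [hA, mem_filter, mem_Icc] at ha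
    obtain ⟨⟨ha1, ha2⟩, ha3, ha4⟩ := ha
    have haR : 0 < (a : ℝ) := by exact_mod_cast ha1
    have haY : (a : ℝ) ≤ Y2 := (Nat.le_floor_iff (by linarith)).1 ha2
    have hinj : Set.InjOn (fun m : ℕ => m / a)
        (M.filter fun m => ∃ b, m = a * b ∧ Rough z b : Finset ℕ) := by
      intro m hm m' hm' he
      obtain ⟨-, b, rfl, -⟩ := mem_filter.1 (mem_coe.1 hm)
      obtain ⟨-, b', rfl, -⟩ := mem_filter.1 (mem_coe.1 hm')
      simp only [Nat.mul_div_cancel_left _ ha1] at he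
      rw [he]
    rw [← card_image_of_injOn hinj]
    have hcs := count_short z (x / a) (h / a) hz (by positivity) (by
        rw [le_div_iff₀ haR]
        calc (z : ℝ) ^ 3 * a ≤ (z : ℝ) ^ 3 * Y2 := by gcongr
          _ ≤ h := hh)
      ((M.filter fun m => ∃ b, m = a * b ∧ Rough z b).image fun m => m / a) (by
        intro n hn
        obtain ⟨m, hm, rfl⟩ := mem_image.1 hn
        obtain ⟨hm1, b, rfl, hb⟩ := mem_filter.1 hm
        obtain ⟨h1, h2, -⟩ := hM _ hm1
        rw [Nat.mul_div_cancel_left _ ha1]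
        push_cast at h1 h2
        refine ⟨?_, ?_, hb⟩
        · rw [div_lt_iff₀ haR]; linarith
        · rw [← add_div, le_div_iff₀ haR]; linarith)
    refine hcs.trans (le_of_eq ?_)
    field_simp
  have h1 : (M.card : ℝ) ≤ ∑ a ∈ A, (((M.filter fun m => ∃ b, m = a * b ∧ Rough z b).card : ℕ) : ℝ) := by
    have := (card_le_card hsub).trans card_biUnion_le
    exact_mod_cast this
  have h2 := sum_inv z Y1 Y2 hz hY1 hY A (by
    intro a ha
    rw [hA, mem_filter, mem_Icc] at ha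
    obtain ⟨⟨ha1, ha2⟩, ha3, ha4⟩ := ha
    have haY : (a : ℝ) ≤ Y2 := (Nat.le_floor_iff (by linarith)).1 ha2
    refine ⟨?_, ha4.le, haY, ha3⟩
    have : (1 : ℝ) < a := by linarith
    have : 1 < a := by exact_mod_cast this
    omega)
  calc (M.card : ℝ) ≤ _ := h1
    _ ≤ ∑ a ∈ A, 3 * h / Real.log z * (1 / (a : ℝ)) := sum_le_sum hone
    _ = 3 * h / Real.log z * ∑ a ∈ A, 1 / (a : ℝ) := by rw [mul_sum]
    _ ≤ 3 * h / Real.log z * (100 * (1 + Real.log (Y2 / Y1)) / Real.log z) := by gcongr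
    _ = 300 * h * (1 + Real.log (Y2 / Y1)) / (Real.log z) ^ 2 := by
        field_simp
        ring

/-- **The discarding lemma**: rough tuples with product in an interval and some entry in a window -/
theorem drop_tuples {k z K : ℕ} (x h Y1 Y2 : ℝ) (hz : 2 ≤ z) (hx : 0 ≤ x) (hY1 : 1 ≤ Y1)
    (hY : Y1 ≤ Y2) (hh : (z : ℝ) ^ 3 * Y2 ≤ h) (hK : x + h ≤ (z : ℝ) ^ (K + 1))
    (TT : Finset (Fin k → ℕ)) (hr : ∀ f ∈ TT, ∀ i, Rough z (f i))
    (hI : ∀ f ∈ TT, x < ((∏ i, f i : ℕ) : ℝ) ∧ ((∏ i, f i : ℕ) : ℝ) ≤ x + h)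
    (hw : ∀ f ∈ TT, ∃ i, Y1 < (f i : ℝ) ∧ (f i : ℝ) ≤ Y2) :
    (TT.card : ℝ) ≤ 300 * (k : ℝ) ^ K * h * (1 + Real.log (Y2 / Y1)) / (Real.log z) ^ 2 := by
  classical
  have hz2 : (2 : ℝ) ≤ z := by exact_mod_cast hz
  have hl : 0 < Real.log z := Real.log_pos (by linarith)
  have hh0 : 0 ≤ h := le_trans (mul_nonneg (by positivity) (by linarith)) hh
  have hlog : 0 ≤ Real.log (Y2 / Y1) := Real.log_nonneg (by rw [le_div_iff₀ (by linarith)]; linarith)
  rcases TT.eq_empty_or_nonempty with rfl | hne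
  · simp only [card_empty, Nat.cast_zero]
    positivity
  have hk : 1 ≤ k := by
    obtain ⟨f, hf⟩ := hne
    obtain ⟨i, -⟩ := hw f hf
    have := i.2
    omega
  have h0 : ∀ f ∈ TT, ∏ i, f i ≠ 0 := by
    intro f hf h0
    have := (hI f hf).1
    rw [h0, Nat.cast_zero] at this
    linarith
  have hK' : ∀ f ∈ TT, ∏ i, f i ≤ z ^ (K + 1) := by
    intro f hf
    have := (hI f hf).2.trans hK
    exact_mod_cast this
  have h1 := tuples_le (by omega) TT h0 hr hK' hk
  have h2 := divisor_window (z := z) x h Y1 Y2 hz hx hY1 hY hh (TT.image fun f => ∏ i, f i) (by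
    intro m hm
    obtain ⟨f, hf, rfl⟩ := mem_image.1 hm
    refine ⟨(hI f hf).1, (hI f hf).2, ?_⟩
    obtain ⟨i, hi1, hi2⟩ := hw f hf
    refine ⟨f i, ∏ j ∈ univ \ {i}, f j, prod_eq_mul_prod_sdiff_singleton_of_mem (mem_univ i) f,
      hr f hf i, ?_, hi1, hi2⟩
    exact (rough_prod f (hr f hf)).of_dvd
      ⟨f i, by rw [mul_comm]; exact prod_eq_mul_prod_sdiff_singleton_of_mem (mem_univ i) f⟩)
  have h3 : (TT.card : ℝ) ≤ (k : ℝ) ^ K * (TT.image fun f => ∏ i, f i).card := by exact_mod_cast h1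
  calc (TT.card : ℝ) ≤ (k : ℝ) ^ K * (TT.image fun f => ∏ i, f i).card := h3
    _ ≤ (k : ℝ) ^ K * (300 * h * (1 + Real.log (Y2 / Y1)) / (Real.log z) ^ 2) := by gcongr
    _ = 300 * (k : ℝ) ^ K * h * (1 + Real.log (Y2 / Y1)) / (Real.log z) ^ 2 := by ring

end Pool.Agent.Work.MP_a8fbd7_nt.OX.SV
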